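import Pool.Agent.U513.AP.Cum
import Pool.Agent.H426AM.Final

/-!
# The variance of primes in residue classes modulo all the moduli near the numerators and denominators of Diophantine approximations

Let `α ∈ ℝ ^ d` and consider all its approximations `(k, u_1, …, u_d)` with `|k α_i - γ_i - u_i| ≤ k ^ (-τ)`; for `d = 1`, `γ = 0`,
`τ = 1` these contain the denominators and numerators of all the convergents of the continued fraction of `α`, for `τ = 1 / d` all
the best simultaneous approximations. We show that for every `ε > 0` there is `δ > 0` such that, for all `α` outside of a set of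
Hausdorff dimension at most `(d + 1 + w - δ) / (1 + τ)`, unconditionally, ALL the moduli `q ≥ 1` at a distance of at most `k ^ w` from
`a k + b_1 u_1 + ⋯ + b_d u_d`, for every integral linear form `(a, b) ≠ 0` and all these approximations with large `k`, have
`G(X, q) ≥ X (log q - 1/2 log X - ε log X)` for ALL real `X ≥ q`. The theorem is more general: linear forms are replaced by all the
integral polynomials `P(k, u)` of degree at most `D` with small level sets, with the dimension `(d + 1 - l + D + w - δ) / (1 + τ)`, for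
example `k ^ 2 + u_1 ^ 2 + Q(u_2, …)` with `l = D = 2`.

Proof. The starting library (`H426AM`) bounds the number of the exceptional moduli between `K` and `2 K` by `K ^ (1 - δ)`. The integral
vectors `(k, u)` with `k ≈ N` and `P(k, u)` near these moduli are counted with the level sets of `P` (`U513/AP/Core`), and the
sets of the `α` approximated by them, cubes of side `2 N ^ (- 1 - τ)`, are used as the covers in the definition of the Hausdorff
measure. The numbers `k`, `u` have the density zero for a given `α`, so that the bound for the number of exceptional moduli alone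
does not say anything about them.
-/

set_option autoImplicit false

open Filter MeasureTheory

namespace Pool.Agent.Results.MP_5dd4bb_nt.Approximations

open Finset

/-- `G(X, q)`: the sum of `(ψ(X; q, A) - X / φ(q)) ^ 2` over the reduced residue classes `A` modulo `q`. -/
noncomputable def variance (X : ℝ) (q : ℕ) : ℝ :=
  ∑ A ∈ (range q).filter (fun A => A.Coprime q),
    ((∑ n ∈ (Icc 1 ⌊X⌋₊).filter (fun n => n ≡ A [MOD q]), ArithmeticFunction.vonMangoldt n) - X / Nat.totient q) ^ 2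

/-- `G(X, q) ≥ X (log q - 1/2 log X - ε log X)` for all real `X ≥ q` -/
def Good (ε : ℝ) (q : ℕ) : Prop :=
  ∀ X : ℝ, (q : ℝ) ≤ X → X * (Real.log q - 1 / 2 * Real.log X - ε * Real.log X) ≤ variance X q

/-- The level sets of `P` in the boxes `|w_i| ≤ X` have at most `C X ^ (r - l + ε)` elements. -/
def SmallLevels {r : ℕ} (P : MvPolynomial (Fin r) ℤ) (l : ℝ) : Prop :=
  l ≤ r ∧ ∀ ε : ℝ, 0 < ε → ∃ C : ℝ, ∀ X : ℕ, 1 ≤ X → ∀ v : ℤ,
    ({w : Fin r → ℤ | (∀ i, |w i| ≤ X) ∧ MvPolynomial.eval w P = v}.ncard : ℝ) ≤ C * (X : ℝ) ^ (r - l + ε)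

/-- the polynomial `x_0 ^ 2 + x_1 ^ 2 + Q(x_2, x_3, …)` -/
noncomputable def squaresPlus {r : ℕ} (Q : MvPolynomial (Fin r) ℤ) : MvPolynomial (Fin (r + 2)) ℤ :=
  MvPolynomial.X 0 ^ 2 + MvPolynomial.X 1 ^ 2 + MvPolynomial.rename (fun i : Fin r => i.succ.succ) Q

/-- `(k, u)` is an approximation of `α` of exponent `τ` and shift `γ`: `|k α_i - γ_i - u_i| ≤ k ^ (-τ)` for all `i`. -/
def Approx {d : ℕ} (τ : ℝ) (γ α : Fin d → ℝ) (k : ℕ) (u : Fin d → ℤ) : Prop :=
  ∀ i, |(k : ℝ) * α i - γ i - u i| ≤ (k : ℝ) ^ (-τ)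

open Classical in
lemma count (ε : ℝ) (hε : 0 < ε) : ∃ δ : ℝ, 0 < δ ∧ δ < 1 ∧ ∃ N₀ : ℕ, ∀ N : ℕ, N₀ ≤ N →
    ({q : ℕ | 1 ≤ q ∧ q ≤ N ∧ N < 2 * q ∧ ¬ Good ε q}.ncard : ℝ) ≤ 2 * (N : ℝ) ^ (1 - δ) := by
  obtain ⟨κ, K₀, hκ, hK⟩ := H426AM.main ε hε
  obtain ⟨δ, hδ⟩ : ∃ δ, δ = min κ (1 / 2) := ⟨_, rfl⟩
  have hδ0 : 0 < δ := by rw [hδ]; exact lt_min hκ (by norm_num)
  have hδκ : δ ≤ κ := by rw [hδ]; exact min_le_left _ _
  have hδ1 : δ ≤ 1 / 2 := by rw [hδ]; exact min_le_right _ _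
  refine ⟨δ, hδ0, by linarith, 2 * ⌈K₀⌉₊ + 2, fun N hN => ?_⟩
  have hKN : K₀ ≤ ((N / 2 : ℕ) : ℝ) := by
    refine (Nat.le_ceil K₀).trans ?_
    exact_mod_cast (by omega : ⌈K₀⌉₊ ≤ N / 2)
  have h1 := hK (N / 2) hKN
  have hK1 : (1 : ℝ) ≤ ((N / 2 : ℕ) : ℝ) := by exact_mod_cast (by omega : 1 ≤ N / 2)
  have hKle : ((N / 2 : ℕ) : ℝ) ≤ N := by exact_mod_cast Nat.div_le_self N 2
  have hN1 : (1 : ℝ) ≤ N := hK1.trans hKle
  have hsub : {q : ℕ | 1 ≤ q ∧ q ≤ N ∧ N < 2 * q ∧ ¬ Good ε q} ⊆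
      (((Ioc (N / 2) (2 * (N / 2))).filter (fun k : ℕ => ∃ X : ℝ, (k : ℝ) ≤ X ∧
        variance X k < X * (Real.log k - 1 / 2 * Real.log X - ε * Real.log X)) ∪ {N} : Finset ℕ) : Set ℕ) := by
    rintro q ⟨_, h3, h4, h5⟩
    rw [mem_coe, mem_union, mem_singleton]
    by_cases hqN : q = N
    · exact Or.inr hqN
    · left
      rw [mem_filter, mem_Ioc]
      unfold Good at h5
      push Not at h5
      exact ⟨⟨by omega, by omega⟩, h5⟩
  have h2 := Set.ncard_le_ncard hsub (Finset.finite_toSet _)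
  rw [Set.ncard_coe_finset] at h2
  have h3 := h2.trans (Finset.card_union_le _ _)
  rw [card_singleton] at h3
  have h4 : ((N / 2 : ℕ) : ℝ) ^ (1 - κ) ≤ (N : ℝ) ^ (1 - δ) := by
    calc ((N / 2 : ℕ) : ℝ) ^ (1 - κ) ≤ ((N / 2 : ℕ) : ℝ) ^ (1 - δ) :=
          Real.rpow_le_rpow_of_exponent_le hK1 (by linarith)
      _ ≤ (N : ℝ) ^ (1 - δ) := Real.rpow_le_rpow (by linarith) hKle (by linarith)
  have h5 : 1 ≤ (N : ℝ) ^ (1 - δ) := Real.one_le_rpow hN1 (by linarith)
  have h6 : ({q : ℕ | 1 ≤ q ∧ q ≤ N ∧ N < 2 * q ∧ ¬ Good ε q}.ncard : ℝ) ≤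
      (((Ioc (N / 2) (2 * (N / 2))).filter (fun k : ℕ => ∃ X : ℝ, (k : ℝ) ≤ X ∧
        variance X k < X * (Real.log k - 1 / 2 * Real.log X - ε * Real.log X))).card : ℝ) + 1 := by
    exact_mod_cast h3
  have h7 : (((Ioc (N / 2) (2 * (N / 2))).filter (fun k : ℕ => ∃ X : ℝ, (k : ℝ) ≤ X ∧
        variance X k < X * (Real.log k - 1 / 2 * Real.log X - ε * Real.log X))).card : ℝ) ≤
      ((N / 2 : ℕ) : ℝ) ^ (1 - κ) := h1
  linarith

/-- **The variance of primes modulo all the moduli near the approximations of almost all points.** For every `ε > 0` there is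
`0 < δ < 1` such that for all `d ≥ 1`, `D ≥ 1`, `τ ≥ 0`, `w ≥ 0`, `l` and all `γ ∈ ℝ ^ d` there is a set `E` of Hausdorff dimension at
most `(d + 1 - l + D + w - δ) / (1 + τ)` (of Lebesgue measure zero if `D + w + 1 ≤ l + d τ`), such that for all `α ∉ E` and all integral
polynomials `P` in `d + 1` variables of degree at most `D` with `SmallLevels P l`, for all large `k` and all integral vectors `u` with
`|k α_i - γ_i - u_i| ≤ k ^ (-τ)`, ALL the moduli `q ≥ 1` with `|q - P(k, u)| ≤ k ^ w` have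
`G(X, q) ≥ X (log q - 1/2 log X - ε log X)` for ALL real `X ≥ q`. All the nonconstant polynomials, such as the linear forms, have
`SmallLevels P 1`, and the polynomials `x_0 ^ 2 + x_1 ^ 2 + Q(x_2, …)` have `SmallLevels P 2`. -/
theorem result :
    (∀ ε : ℝ, 0 < ε → ∃ δ : ℝ, 0 < δ ∧ δ < 1 ∧
      ∀ (d D : ℕ) (τ w l : ℝ) (γ : Fin d → ℝ), 1 ≤ d → 1 ≤ D → 0 ≤ τ → 0 ≤ w →
        ∃ E : Set (Fin d → ℝ), dimH E ≤ ENNReal.ofReal ((d + 1 - l + D + w - δ) / (1 + τ)) ∧
          (D + w + 1 ≤ l + d * τ → volume E = 0) ∧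
          ∀ α, α ∉ E → ∀ P : MvPolynomial (Fin (d + 1)) ℤ, P.totalDegree ≤ D → SmallLevels P l →
            ∀ᶠ k : ℕ in atTop, ∀ u : Fin d → ℤ, Approx τ γ α k u → ∀ q : ℕ, 1 ≤ q →
              |(q : ℝ) - (MvPolynomial.eval (Fin.cons (k : ℤ) u : Fin (d + 1) → ℤ) P : ℤ)| ≤ (k : ℝ) ^ w →
                ∀ X : ℝ, (q : ℝ) ≤ X →
                  X * (Real.log q - 1 / 2 * Real.log X - ε * Real.log X) ≤ variance X q) ∧
    (∀ (r : ℕ) (P : MvPolynomial (Fin r) ℤ), (∀ c : ℤ, P ≠ MvPolynomial.C c) → SmallLevels P 1) ∧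
    ∀ (r : ℕ) (Q : MvPolynomial (Fin r) ℤ), SmallLevels (squaresPlus Q) 2 := by
  refine ⟨?_, fun r P hP => Pool.Agent.U513.AP.lev_one P hP, fun r Q => Pool.Agent.U513.AP.lev_squares Q⟩
  intro ε hε
  obtain ⟨δ, hδ0, hδ1, N₀, h⟩ := count ε hε
  refine ⟨δ / 2, by linarith, by linarith, fun d D τ w l γ hd hD hτ hw => ?_⟩
  obtain ⟨E, g1, g2, g3⟩ := Pool.Agent.U513.AP.scale_nat_law (G := Good ε) (δ := δ) (C := 2) hδ0 hδ1 (by norm_num) N₀ h
    (d := d) (D := D) (τ := τ) (w := w) (l := l) hd hD hτ hw γ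
  exact ⟨E, g1, g2, fun α hα P hP1 hP2 => g3 α hα P hP1 hP2⟩

end Pool.Agent.Results.MP_5dd4bb_nt.Approximations
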