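import Pool.Agent.U536.CF.Sc
import Pool.Agent.Results.MP_5dd4bb_nt.AlmostAllModuli

/-!
# The variance of the primes for all moduli near integers with a large common factor with a value of a multiplicative function

Let `f` be a positive multiplicative function of at most polynomial growth such that `f p ≤ M p` for the large primes `p`,
with different values at different large primes; for example Euler's function or the sum of the divisors. Let `G` have
steps bounded below by a positive constant and growth at most `v^d`, for example `α v^d`. Let `ε > 0`, `b < 1` and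
`0 ≤ c < 2 b - 1`. For all `m ≤ N` but `N exp (-(log N)^c)`, for EVERY integer `w ≥ exp ((log N)^b)` with `gcd(w, f(m)) ≥ w^ρ`,
EVERY modulus `k` with `|k - G w| ≤ w ^ κ` and EVERY real `X ≥ k`, the variance `G(X, k)` of the primes in the reduced residue
classes modulo `k` is at least `X (log k - 1/2 log X - ε log X)`, unconditionally, if `κ ≥ 0` and `d (1 - η) + κ < ρ ≤ 1` (`η > 0`
depends only on `ε`). The integers `w` include all large divisors of `f(m)` and their multiples by small integers; for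
Euler's function, the orders of the elements of the group of units modulo `m`.

Proof. Write `m = k u` with `u` squarefree and composed of primes larger than `N^(1/J)`, `J = (log N)^a`, and
`k ≤ exp (4 (log N)^a)`; this is possible for all `m ≤ N` but very few. If `v ∣ f(k) f(u)`, then `v = g v'` with `g ∣ f(k)` and
`v' ∣ ∏ f(p)`, and the number of such `u ≤ N / k` is at most `N / (k v')` times `(log N)^O(J)` times the number `τ_J(v')` of the
ordered factorizations of `v'` into `J` factors. The inequality `τ_J^q ≤ τ_K` for `K ≥ J^q` and Hölder's inequality bound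
the sum over the sparse set of the exceptional `v`. The count of the exceptional moduli in `(K, 2K]`, at most
`K^(1 - η)`, is the theorem `AlmostAllModuli` of this page in the starting library; the large divisors of the values of
multiplicative functions form a set of density zero and are taken with very large multiplicities, and so the theorem does
not follow from that count alone.
-/

set_option autoImplicit false

namespace Pool.Agent.Results.MP_5dd4bb_nt.CommonFactors

open Finset
open Pool.Agent.N733.TG (LM Expanding lm_totient lm_sigma expanding_pow)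
open Pool.Agent.U536.CF (Common common_scale_nat common_of_dvd common_order)

/-- the variance `G(X, k)`: the sum over the reduced residues `A` modulo `k` of `(ψ(X; k, A) - X / φ(k))²` -/
noncomputable def variance (X : ℝ) (k : ℕ) : ℝ :=
  ∑ A ∈ (range k).filter (fun A => A.Coprime k),
    ((∑ n ∈ (Icc 1 ⌊X⌋₊).filter (fun n => n ≡ A [MOD k]), ArithmeticFunction.vonMangoldt n) - X / Nat.totient k) ^ 2

/-- **The variance of the primes for all moduli near integers with a large common factor with a value of a multiplicative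
function.** For every `ε > 0` there is `0 < η < 1` such that the following holds. Let `f` be multiplicative and positive, of at
most polynomial growth, with `f p ≤ M p` at the large primes, and injective there. Let `G` have steps `≥ a > 0` and growth at
most `v^d`. Let `b < 1` and `0 ≤ c < 2 b - 1`, `κ ≥ 0` and `d (1 - η) + κ < ρ ≤ 1`. For all large `N`, for all `m ≤ N` but
`N exp (-(log N)^c)`, for EVERY integer `w ≥ exp ((log N)^b)` with `gcd(w, f(m)) ≥ w^ρ`, EVERY modulus `k ≥ 1` with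
`|k - G w| ≤ w ^ κ` and EVERY real `X ≥ k`, the variance of the primes up to `X` in the reduced residue classes modulo `k` is at
least `X (log k - 1/2 log X - ε log X)`. All divisors `w ≥ exp ((log N)^b)` of `f(m)` are such integers `w`, and for Euler's function the orders
`≥ exp ((log N)^b)` of the units modulo `m`. Euler's function and the sum of the divisors are examples of `f`, and `α v^d` with
`α > 0`, `d ≥ 1` is an example of `G`. -/
theorem result :
    (∀ ε : ℝ, 0 < ε → ∃ η : ℝ, 0 < η ∧ η < 1 ∧ ∀ f : ℕ → ℕ, LM f → ∀ (G : ℕ → ℝ) (d : ℝ), Expanding G d →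
      ∀ κ ρ b c : ℝ, 0 ≤ κ → d * (1 - η) + κ < ρ → ρ ≤ 1 → b < 1 → 0 ≤ c → c < 2 * b - 1 → ∃ N₀ : ℕ, ∀ N : ℕ, N₀ ≤ N →
        ({m : ℕ | 1 ≤ m ∧ m ≤ N ∧ ¬ ∀ w : ℕ, Common f b ρ N m w → ∀ k : ℕ, 1 ≤ k → |(k : ℝ) - G w| ≤ (w : ℝ) ^ κ →
          ∀ X : ℝ, (k : ℝ) ≤ X → X * (Real.log k - 1 / 2 * Real.log X - ε * Real.log X) ≤ variance X k}.ncard : ℝ) ≤
          N * Real.exp (-(Real.log N ^ c))) ∧
    (LM Nat.totient ∧ LM (fun m => ∑ d ∈ m.divisors, d)) ∧
    (∀ α d : ℝ, 0 < α → 1 ≤ d → Expanding (fun v => α * (v : ℝ) ^ d) d) ∧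
    (∀ (f : ℕ → ℕ) (b ρ : ℝ) (N m w : ℕ), ρ ≤ 1 → Real.exp (Real.log N ^ b) ≤ (w : ℝ) → w ∣ f m → Common f b ρ N m w) ∧
    ∀ (b ρ : ℝ) (N m : ℕ), ρ ≤ 1 → ∀ x : (ZMod m)ˣ, Real.exp (Real.log N ^ b) ≤ (orderOf x : ℝ) →
      Common Nat.totient b ρ N m (orderOf x) := by
  refine ⟨?_, ⟨lm_totient, lm_sigma⟩, fun α d hα hd => expanding_pow hα hd, fun f b ρ N m w hρ hw hd => common_of_dvd hρ hw hd,
    fun b ρ N m hρ x hx => common_order hρ x hx⟩
  classical
  intro ε hε
  obtain ⟨η₀, K₀, hη₀, h⟩ := AlmostAllModuli.result ε hε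
  obtain ⟨η, hη⟩ : ∃ η, η = min η₀ (1 / 2) := ⟨_, rfl⟩
  have hη0 : 0 < η := by rw [hη]; exact lt_min hη₀ (by norm_num)
  have hηη : η ≤ η₀ := by rw [hη]; exact min_le_left _ _
  have hη1 : η < 1 := by
    have : η ≤ 1 / 2 := by rw [hη]; exact min_le_right _ _
    linarith
  refine ⟨η, hη0, hη1, fun f hf G d hG κ ρ b c hκ h1 hρ hb hc hcb => ?_⟩
  obtain ⟨N₀, hN₀⟩ := common_scale_nat (s := 1 - η) (C := 2) (by linarith) (2 * (⌈K₀⌉₊ + 1)) 0 hf hG hκ h1 hρ hb hc hcb
  obtain ⟨Q, hQ⟩ : ∃ Q : ℕ → Prop, Q = fun k : ℕ => ∃ X : ℝ, (k : ℝ) ≤ X ∧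
      variance X k < X * (Real.log k - 1 / 2 * Real.log X - ε * Real.log X) := ⟨_, rfl⟩
  refine ⟨N₀, fun N hN => ?_⟩
  have key := hN₀ (fun N n => N < 2 * n ∧ Q n) Q (fun M hM => ?_) (fun n M _ _ _ h4 h5 => ⟨h4, h5⟩) N hN
  · refine le_trans (le_of_eq ?_) key
    congr 2
    ext m
    simp only [Set.mem_ofPred_eq, hQ]
    push Not
    rfl
  · obtain ⟨K, hK⟩ : ∃ K, K = M / 2 := ⟨_, rfl⟩
    have hK1 : ⌈K₀⌉₊ + 1 ≤ K := by omega
    have hK0 : K₀ ≤ K := (Nat.le_ceil K₀).trans (by exact_mod_cast (by omega : ⌈K₀⌉₊ ≤ K))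
    have h2 := h K hK0
    obtain ⟨Fs, h2', hFs⟩ : ∃ Fs : Finset ℕ, (Fs.card : ℝ) ≤ (K : ℝ) ^ (1 - η₀) ∧ ∀ n : ℕ, n ∈ Ioc K (2 * K) →
        (∃ X : ℝ, (n : ℝ) ≤ X ∧ variance X n < X * (Real.log n - 1 / 2 * Real.log X - ε * Real.log X)) → n ∈ Fs :=
      ⟨_, h2, fun n h1 h3 => Finset.mem_filter.2 ⟨h1, h3⟩⟩
    have hsub : {n : ℕ | 1 ≤ n ∧ n ≤ M ∧ M < 2 * n ∧ Q n} ⊆ ((Fs ∪ {M} : Finset ℕ) : Set ℕ) := by
      rintro n ⟨g1, g2, g3, g4⟩
      rw [Finset.mem_coe, Finset.mem_union, Finset.mem_singleton]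
      rw [hQ] at g4
      by_cases h5 : n = M
      · exact Or.inr h5
      · left
        exact hFs n (Finset.mem_Ioc.2 ⟨by omega, by omega⟩) g4
    have h3 := Set.ncard_le_ncard hsub (Finset.finite_toSet _)
    rw [Set.ncard_coe_finset] at h3
    have h4 := h3.trans (Finset.card_union_le _ _)
    rw [Finset.card_singleton] at h4
    have h5' : ({n : ℕ | 1 ≤ n ∧ n ≤ M ∧ M < 2 * n ∧ Q n}.ncard : ℝ) ≤ (Fs.card : ℝ) + 1 := by exact_mod_cast h4
    have h5 : ({n : ℕ | 1 ≤ n ∧ n ≤ M ∧ M < 2 * n ∧ Q n}.ncard : ℝ) ≤ (K : ℝ) ^ (1 - η₀) + 1 := by linarith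
    have hM1 : (1 : ℝ) ≤ M := by exact_mod_cast (by omega : 1 ≤ M)
    have hKM : (K : ℝ) ≤ M := by exact_mod_cast (by omega : K ≤ M)
    have hK1' : (1 : ℝ) ≤ K := by exact_mod_cast (by omega : 1 ≤ K)
    have h6 : (K : ℝ) ^ (1 - η₀) ≤ (M : ℝ) ^ (1 - η) :=
      (Real.rpow_le_rpow_of_exponent_le hK1' (by linarith)).trans (Real.rpow_le_rpow (by linarith) hKM (by linarith))
    have h7 : (1 : ℝ) ≤ (M : ℝ) ^ (1 - η) := Real.one_le_rpow hM1 (by linarith)
    linarith

end Pool.Agent.Results.MP_5dd4bb_nt.CommonFactors
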