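import Pool.Agent.U536.DS.Sc
import Pool.Agent.Results.MP_5dd4bb_nt.AlmostAllModuli

/-!
# The variance of the primes for all moduli near the integral combinations of two divisors of a value of a multiplicative
function

Let `f` be a positive multiplicative function of at most polynomial growth such that `f p ≤ M p` for the large primes `p`,
with different values at different large primes; for example Euler's function or the sum of the divisors. Let `G` have steps
bounded below by a positive constant and growth at most `v^d`, for example `α v^d`. Let `ε > 0`, `b < 1` and `0 ≤ c < 2 b -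
1`. For all `m ≤ N` but `N exp (-(log N)^c)`, for EVERY integer `w ≥ exp ((log N)^b)` of the form `w = u s + v t` with
divisors `s`, `t` of `f(m)` and integers `|u|, |v| ≤ exp ((log N)^θ)`, EVERY modulus `k` with `|k - G w| ≤ w ^ κ` and EVERY
real `X ≥ k`, the variance `G(X, k)` of the primes in the reduced residue classes modulo `k` is at least `X (log k - 1/2 log
X - ε log X)`, unconditionally, if `κ ≥ 0` and `d (1 - η) + κ < 1`, `θ < b` (`η > 0` depends only on `ε`). The integers `w`
include all large divisors of `f(m)` and the large sums and differences of ANY two divisors of `f(m)`; for Euler's function,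
those of the orders of any two units modulo `m`.

Proof. Write `m = k u` with `u` squarefree and composed of primes larger than `N^(1/J)`, `J = (log N)^a`, and `k ≤ exp (4
(log N)^a)`; this is possible for all `m ≤ N` but very few. If `v ∣ f(k) f(u)`, then `v = g v'` with `g ∣ f(k)` and `v' ∣ ∏
f(p)`, and the number of such `u ≤ N / k` is at most `N / (k v')` times `(log N)^O(J)` times the number `τ_J(v')` of the
ordered factorizations of `v'` into `J` factors. Take for `v` the least common multiple of `s` and `t`: the sum of `1 / [s,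
t]` over the pairs `s, t ≤ X` with `u s + v t = w` is at most `4 U (1 + log X) τ(w) / w` if `|u|, |v| ≤ U`; the inequality
`τ_J^q ≤ τ_K` for `K ≥ J^q` and Hölder's inequality bound the sum over the pairs with exceptional `w`. The integers of the
hand-in `CommonFactors` of this page have a large common factor with `f(m)`; the sums and differences of two divisors of
`f(m)` have in general none. The count of the exceptional moduli in `(K, 2K]`, at most `K^(1 - η)`, is the theorem
`AlmostAllModuli` of this page in the starting library; the pairs of divisors of the `f(m)` are far more numerous than the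
`m`, and so the theorem does not follow from that count alone.
-/

set_option autoImplicit false

namespace Pool.Agent.Results.MP_5dd4bb_nt.DivisorSums

open Finset
open Pool.Agent.N733.TG (LM Expanding lm_totient lm_sigma expanding_pow)
open Pool.Agent.U536.DS (Comb comb_scale_nat comb_pm comb_orders)

/-- the variance `G(X, k)`: the sum over the reduced residues `A` modulo `k` of `(ψ(X; k, A) - X / φ(k))²` -/
noncomputable def variance (X : ℝ) (k : ℕ) : ℝ :=
  ∑ A ∈ (range k).filter (fun A => A.Coprime k),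
    ((∑ n ∈ (Icc 1 ⌊X⌋₊).filter (fun n => n ≡ A [MOD k]), ArithmeticFunction.vonMangoldt n) - X / Nat.totient k) ^ 2

/-- **The variance of the primes for all moduli near the integral combinations of two divisors of a value of a multiplicative
function.** For every `ε > 0` there is `0 < η < 1` such that the following holds. Let `f` be multiplicative and positive, of
at most polynomial growth, with `f p ≤ M p` at the large primes, and injective there. Let `G` have steps `≥ a > 0` and
growth at most `v^d`. Let `b < 1` and `0 ≤ c < 2 b - 1`, `κ ≥ 0` and `d (1 - η) + κ < 1`, `θ < b`. For all large `N`, for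
all `m ≤ N` but `N exp (-(log N)^c)`, for EVERY integer `w ≥ exp ((log N)^b)` of the form `w = u s + v t` with divisors `s`,
`t` of `f(m)` and integers `|u|, |v| ≤ exp ((log N)^θ)`, EVERY modulus `k ≥ 1` with `|k - G w| ≤ w ^ κ` and EVERY real `X ≥
k`, the variance of the primes up to `X` in the reduced residue classes modulo `k` is at least `X (log k - 1/2 log X - ε log
X)`. All the sums and differences `≥ exp ((log N)^b)` of two divisors of `f(m)` are such integers `w`, and for Euler's
function those of the orders of two units modulo `m`. Euler's function and the sum of the divisors are examples of `f`, and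
`α v^d` with `α > 0`, `d ≥ 1` is an example of `G`. -/
theorem result :
    (∀ ε : ℝ, 0 < ε → ∃ η : ℝ, 0 < η ∧ η < 1 ∧ ∀ f : ℕ → ℕ, LM f → ∀ (G : ℕ → ℝ) (d : ℝ), Expanding G d →
      ∀ κ θ b c : ℝ, 0 ≤ κ → d * (1 - η) + κ < 1 → θ < b → b < 1 → 0 ≤ c → c < 2 * b - 1 → ∃ N₀ : ℕ, ∀ N : ℕ, N₀ ≤ N →
        ({m : ℕ | 1 ≤ m ∧ m ≤ N ∧ ¬ ∀ w : ℕ, Comb f b θ N m w → ∀ k : ℕ, 1 ≤ k → |(k : ℝ) - G w| ≤ (w : ℝ) ^ κ →
          ∀ X : ℝ, (k : ℝ) ≤ X → X * (Real.log k - 1 / 2 * Real.log X - ε * Real.log X) ≤ variance X k}.ncard : ℝ) ≤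
          N * Real.exp (-(Real.log N ^ c))) ∧
    (LM Nat.totient ∧ LM (fun m => ∑ d ∈ m.divisors, d)) ∧
    (∀ α d : ℝ, 0 < α → 1 ≤ d → Expanding (fun v => α * (v : ℝ) ^ d) d) ∧
    (∀ (f : ℕ → ℕ) (b θ : ℝ) (N m s t : ℕ), s ∣ f m → t ∣ f m →
      (Real.exp (Real.log N ^ b) ≤ ((s + t : ℕ) : ℝ) → Comb f b θ N m (s + t)) ∧
      (Real.exp (Real.log N ^ b) ≤ ((s - t : ℕ) : ℝ) → Comb f b θ N m (s - t)) ∧
      (Real.exp (Real.log N ^ b) ≤ (s : ℝ) → Comb f b θ N m s)) ∧
    ∀ (b θ : ℝ) (N m : ℕ) (x y : (ZMod m)ˣ),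
      (Real.exp (Real.log N ^ b) ≤ ((orderOf x + orderOf y : ℕ) : ℝ) → Comb Nat.totient b θ N m (orderOf x + orderOf y)) ∧
      (Real.exp (Real.log N ^ b) ≤ ((orderOf x - orderOf y : ℕ) : ℝ) → Comb Nat.totient b θ N m (orderOf x - orderOf y)) := by
  refine ⟨?_, ⟨lm_totient, lm_sigma⟩, fun α d hα hd => expanding_pow hα hd, fun f b θ N m s t hs ht => comb_pm hs ht,
    fun b θ N m x y => comb_orders x y⟩
  classical
  intro ε hε
  obtain ⟨η₀, K₀, hη₀, h⟩ := AlmostAllModuli.result ε hε
  obtain ⟨η, hη⟩ : ∃ η, η = min η₀ (1 / 2) := ⟨_, rfl⟩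
  have hη0 : 0 < η := by rw [hη]; exact lt_min hη₀ (by norm_num)
  have hηη : η ≤ η₀ := by rw [hη]; exact min_le_left _ _
  have hη1 : η < 1 := by
    have : η ≤ 1 / 2 := by rw [hη]; exact min_le_right _ _
    linarith
  refine ⟨η, hη0, hη1, fun f hf G d hG κ θ b c hκ h1 hθ hb hc hcb => ?_⟩
  obtain ⟨N₀, hN₀⟩ := comb_scale_nat (s := 1 - η) (C := 2) (by linarith) (2 * (⌈K₀⌉₊ + 1)) 0 hf hG hκ h1 hθ hb hc hcb
  obtain ⟨Q, hQ⟩ : ∃ Q : ℕ → Prop, Q = fun k : ℕ => ∃ X : ℝ, (k : ℝ) ≤ X ∧
      variance X k < X * (Real.log k - 1 / 2 * Real.log X - ε * Real.log X) := ⟨_, rfl⟩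
  refine ⟨N₀, fun N hN => ?_⟩
  have key := hN₀ (fun N n => N < 2 * n ∧ Q n) Q (fun M hM => ?_) (fun n M _ _ _ h4 h5 => ⟨h4, h5⟩) N hN
  · refine le_trans (le_of_eq ?_) key
    congr 2
    ext m
    simp only [Set.mem_ofPred_eq, hQ]
    push Not
    rfl
  · obtain ⟨K, hK⟩ : ∃ K, K = M / 2 := ⟨_, rfl⟩
    have hK1 : ⌈K₀⌉₊ + 1 ≤ K := by omega
    have hK0 : K₀ ≤ K := (Nat.le_ceil K₀).trans (by exact_mod_cast (by omega : ⌈K₀⌉₊ ≤ K))
    have h2 := h K hK0
    obtain ⟨Fs, h2', hFs⟩ : ∃ Fs : Finset ℕ, (Fs.card : ℝ) ≤ (K : ℝ) ^ (1 - η₀) ∧ ∀ n : ℕ, n ∈ Ioc K (2 * K) →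
        (∃ X : ℝ, (n : ℝ) ≤ X ∧ variance X n < X * (Real.log n - 1 / 2 * Real.log X - ε * Real.log X)) → n ∈ Fs :=
      ⟨_, h2, fun n h1 h3 => Finset.mem_filter.2 ⟨h1, h3⟩⟩
    have hsub : {n : ℕ | 1 ≤ n ∧ n ≤ M ∧ M < 2 * n ∧ Q n} ⊆ ((Fs ∪ {M} : Finset ℕ) : Set ℕ) := by
      rintro n ⟨g1, g2, g3, g4⟩
      rw [Finset.mem_coe, Finset.mem_union, Finset.mem_singleton]
      rw [hQ] at g4
      by_cases h5 : n = M
      · exact Or.inr h5
      · left
        exact hFs n (Finset.mem_Ioc.2 ⟨by omega, by omega⟩) g4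
    have h3 := Set.ncard_le_ncard hsub (Finset.finite_toSet _)
    rw [Set.ncard_coe_finset] at h3
    have h4 := h3.trans (Finset.card_union_le _ _)
    rw [Finset.card_singleton] at h4
    have h5' : ({n : ℕ | 1 ≤ n ∧ n ≤ M ∧ M < 2 * n ∧ Q n}.ncard : ℝ) ≤ (Fs.card : ℝ) + 1 := by exact_mod_cast h4
    have h5 : ({n : ℕ | 1 ≤ n ∧ n ≤ M ∧ M < 2 * n ∧ Q n}.ncard : ℝ) ≤ (K : ℝ) ^ (1 - η₀) + 1 := by linarith
    have hM1 : (1 : ℝ) ≤ M := by exact_mod_cast (by omega : 1 ≤ M)
    have hKM : (K : ℝ) ≤ M := by exact_mod_cast (by omega : K ≤ M)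
    have hK1' : (1 : ℝ) ≤ K := by exact_mod_cast (by omega : 1 ≤ K)
    have h6 : (K : ℝ) ^ (1 - η₀) ≤ (M : ℝ) ^ (1 - η) :=
      (Real.rpow_le_rpow_of_exponent_le hK1' (by linarith)).trans (Real.rpow_le_rpow (by linarith) hKM (by linarith))
    have h7 : (1 : ℝ) ≤ (M : ℝ) ^ (1 - η) := Real.one_le_rpow hM1 (by linarith)
    linarith

end Pool.Agent.Results.MP_5dd4bb_nt.DivisorSums
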