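import Pool.Agent.H336R2.V.Main

/-!
# An unconditional lower bound for the variance of primes modulo every `k ≥ X ^ (2 / 3 + δ)`

For every modulus `k ≤ X` the variance `G(X,k)` of the primes up to `X` in the reduced residue
classes modulo `k` is at least `X (3/2 log k - log X - ε log X)`, which for `k ≥ X ^ (2 / 3 + δ)` is
at least `δ X log X`, the order of magnitude of the conjectured asymptotic formula. Friedlander and
Goldston proved this bound under the Generalized Riemann Hypothesis.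
-/

set_option autoImplicit false

open Finset

namespace Pool.Agent.Results.MP_5dd4bb_nt.EveryModulus

/-- **The variance of primes modulo every modulus, from below.** (1) For every `ε > 0` there is
`X₀` such that for all real `X ≥ X₀` and all integers `1 ≤ k ≤ X` the sum `G(X,k)` of
`(ψ(X;k,A) - X/φ(k))²` over the reduced residue classes `A` modulo `k` satisfies
`G(X,k) ≥ X (3/2 log k - log X - ε log X)`. (2) For every `δ > 0` there is `X₀` such that
`G(X,k) ≥ δ X log X` for all real `X ≥ X₀` and all integers `k` with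
`X ^ (2 / 3 + δ) ≤ k ≤ X`. -/
theorem result :
    (∀ ε : ℝ, 0 < ε → ∃ X₀ : ℝ, ∀ X : ℝ, X₀ ≤ X → ∀ k : ℕ, 1 ≤ k → (k : ℝ) ≤ X →
      X * (3 / 2 * Real.log k - Real.log X - ε * Real.log X) ≤
        ∑ A ∈ (range k).filter (fun A => A.Coprime k),
          ((∑ n ∈ (Icc 1 ⌊X⌋₊).filter (fun n => n ≡ A [MOD k]), ArithmeticFunction.vonMangoldt n)
            - X / Nat.totient k) ^ 2) ∧
    ∀ δ : ℝ, 0 < δ → ∃ X₀ : ℝ, ∀ X : ℝ, X₀ ≤ X → ∀ k : ℕ, X ^ (2 / 3 + δ) ≤ k → (k : ℝ) ≤ X →
      δ * (X * Real.log X) ≤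
        ∑ A ∈ (range k).filter (fun A => A.Coprime k),
          ((∑ n ∈ (Icc 1 ⌊X⌋₊).filter (fun n => n ≡ A [MOD k]), ArithmeticFunction.vonMangoldt n)
            - X / Nat.totient k) ^ 2 := by
  refine ⟨fun ε hε => H336V.main ε hε, fun δ hδ => ?_⟩
  obtain ⟨X₀, h⟩ := H336V.main (δ / 2) (by linarith)
  refine ⟨max X₀ 1, fun X hX k h1 h2 => ?_⟩
  have hX1 : 1 ≤ X := (le_max_right _ _).trans hX
  have hX0 : 0 < X := by linarith
  have hk : 0 < (k : ℝ) := lt_of_lt_of_le (Real.rpow_pos_of_pos hX0 _) h1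
  have hk1 : 1 ≤ k := by
    have : 0 < k := by exact_mod_cast hk
    omega
  refine le_trans ?_ (h X ((le_max_left _ _).trans hX) k hk1 h2)
  have hlog : 0 ≤ Real.log X := Real.log_nonneg hX1
  have h3 : (2 / 3 + δ) * Real.log X ≤ Real.log k := by
    rw [← Real.log_rpow hX0]
    exact Real.log_le_log (Real.rpow_pos_of_pos hX0 _) h1
  have h4 : δ * Real.log X ≤ 3 / 2 * Real.log k - Real.log X - δ / 2 * Real.log X := by
    linarith
  calc δ * (X * Real.log X) = X * (δ * Real.log X) := by ring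
    _ ≤ _ := mul_le_mul_of_nonneg_left h4 hX0.le

end Pool.Agent.Results.MP_5dd4bb_nt.EveryModulus
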